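import Mathlib

set_option autoImplicit false

/-!
# Graphs without `K_{r,r}` and the numbers `ex(n; K_{r,r})`: basic transfers
-/

namespace Pool.Agent.L7h47.KRR

open Filter SimpleGraph

/-- the number of edges of a graph on a finite type, as `Set.ncard` -/
theorem ncard_edge {V : Type*} [Fintype V] (G : SimpleGraph V) [DecidableRel G.Adj] :
    G.edgeSet.ncard = G.edgeFinset.card := by
  classical
  rw [Set.ncard_eq_toFinset_card', ← SimpleGraph.edgeFinset]

theorem ncard_le_ex {W : Type*} {H : SimpleGraph W} {n : ℕ} (G : SimpleGraph (Fin n))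
    (h : H.Free G) : G.edgeSet.ncard ≤ extremalNumber n H := by
  classical
  rw [ncard_edge]
  have := card_edgeFinset_le_extremalNumber h
  simpa using this

theorem exists_ex {W : Type*} (H : SimpleGraph W) (hH : H ≠ ⊥) (n : ℕ) :
    ∃ G : SimpleGraph (Fin n), H.Free G ∧ G.edgeSet.ncard = extremalNumber n H := by
  classical
  obtain ⟨G, hG, h⟩ := (exists_isExtremal_free (V := Fin n) hH)
  refine ⟨G, h.prop, ?_⟩
  rw [ncard_edge, card_edgeFinset_of_isExtremal_free h]
  simp

theorem krr_ne_bot {r : ℕ} (hr : 1 ≤ r) :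
    completeBipartiteGraph (Fin r) (Fin r) ≠ ⊥ := by
  intro h
  have h1 : (completeBipartiteGraph (Fin r) (Fin r)).Adj (Sum.inl ⟨0, hr⟩) (Sum.inr ⟨0, hr⟩) := by
    simp [completeBipartiteGraph]
  rw [h] at h1
  exact h1

/-- a free graph on at most `n` vertices gives a lower bound for `ex(n; H)` when `H` has no isolated
vertices... we use the monotonicity of `ex` instead -/
theorem ex_mono {W : Type*} [Fintype W] (H : SimpleGraph W)
    (hH : ∀ w, ∃ w', H.Adj w w') {m n : ℕ} (hmn : m ≤ n) (G : SimpleGraph (Fin m)) (h : H.Free G) :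
    G.edgeSet.ncard ≤ extremalNumber n H := by
  classical
  obtain ⟨f⟩ : Nonempty (Fin m ↪ Fin n) := ⟨Fin.castLEEmb hmn⟩
  have key : ∀ G' : SimpleGraph (Fin n), G' = G.map f → G.edgeSet.ncard ≤ extremalNumber n H := by
    intro G' hG'
    have hadj : ∀ a b, G'.Adj a b → ∃ u v, G.Adj u v ∧ f u = a ∧ f v = b := by
      intro a b hab
      rw [hG', SimpleGraph.map_adj] at hab
      exact hab
    have hadj' : ∀ u v, G'.Adj (f u) (f v) → G.Adj u v := by
      intro u v hab
      rw [hG', SimpleGraph.map_adj_apply] at hab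
      exact hab
    have hfree : H.Free G' := by
      rintro ⟨g⟩
      apply h
      have hr : ∀ w, ∃ v, f v = g w := by
        intro w
        obtain ⟨w', hw'⟩ := hH w
        have h1 : G'.Adj (g w) (g w') := g.toHom.map_adj hw'
        obtain ⟨u, v, _, h3, _⟩ := hadj _ _ h1
        exact ⟨u, h3⟩
      choose k hk using hr
      refine ⟨⟨⟨k, ?_⟩, ?_⟩⟩
      · intro a b hab
        have h1 : G'.Adj (g a) (g b) := g.toHom.map_adj hab
        rw [← hk a, ← hk b] at h1
        exact hadj' _ _ h1
      · intro a b hab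
        have h1 : k a = k b := hab
        apply g.injective
        show g a = g b
        rw [← hk a, ← hk b, h1]
    have h1 : G.edgeSet.ncard ≤ G'.edgeSet.ncard := by
      have h2 : (Sym2.map f) '' G.edgeSet ⊆ G'.edgeSet := by
        rintro e ⟨e', he', rfl⟩
        induction e' using Sym2.ind with
        | _ u v =>
          rw [SimpleGraph.mem_edgeSet] at he'
          rw [Sym2.map_mk, SimpleGraph.mem_edgeSet, hG']
          exact SimpleGraph.map_adj_apply.2 he'
      rw [← Set.ncard_image_of_injective _ (Sym2.map.injective f.injective)]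
      exact Set.ncard_le_ncard h2 (Set.toFinite _)
    exact h1.trans (ncard_le_ex G' hfree)
  exact key _ rfl

theorem krr_adj {r : ℕ} (hr : 1 ≤ r) (w : Fin r ⊕ Fin r) :
    ∃ w', (completeBipartiteGraph (Fin r) (Fin r)).Adj w w' := by
  rcases w with w | w
  · exact ⟨Sum.inr ⟨0, hr⟩, by simp [completeBipartiteGraph]⟩
  · exact ⟨Sum.inl ⟨0, hr⟩, by simp [completeBipartiteGraph]⟩

/-- a power of `n` with a smaller exponent is eventually small -/
theorem pow_small {a b K ε : ℝ} (hab : a < b) (hε : 0 < ε) :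
    ∀ᶠ n : ℕ in atTop, K * (n : ℝ) ^ a ≤ ε * (n : ℝ) ^ b := by
  have h1 : Tendsto (fun n : ℕ => ((n : ℝ)) ^ (b - a)) atTop atTop :=
    (tendsto_rpow_atTop (by linarith)).comp tendsto_natCast_atTop_atTop
  filter_upwards [h1.eventually_ge_atTop (K / ε), eventually_ge_atTop 1] with n hn hn1
  have hn0 : (0:ℝ) < n := by exact_mod_cast hn1
  rw [div_le_iff₀ hε] at hn
  have h2 : (n : ℝ) ^ b = (n : ℝ) ^ (b - a) * (n : ℝ) ^ a := by
    rw [← Real.rpow_add hn0]; congr 1; ring
  rw [h2]
  have h3 : 0 ≤ (n : ℝ) ^ a := by positivity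
  nlinarith [mul_le_mul_of_nonneg_right hn h3]

end Pool.Agent.L7h47.KRR
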